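import Mathlib

/-!
# Certificates for lower bounds in spectral variation: integer arithmetic

Gaussian integers are pairs of integers; all matrices of a certificate are given by lists of pairs.
-/

set_option autoImplicit false

namespace Pool.Agent.Lib.MP_29a676_an.Cert

/-- product of Gaussian integers -/
def gmul (x y : ℤ × ℤ) : ℤ × ℤ := (x.1 * y.1 - x.2 * y.2, x.1 * y.2 + x.2 * y.1)

/-- sum of Gaussian integers -/
def gadd (x y : ℤ × ℤ) : ℤ × ℤ := (x.1 + y.1, x.2 + y.2)

/-- difference of Gaussian integers -/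
def gsub (x y : ℤ × ℤ) : ℤ × ℤ := (x.1 - y.1, x.2 - y.2)

/-- conjugate -/
def gconj (x : ℤ × ℤ) : ℤ × ℤ := (x.1, -x.2)

/-- multiplication by an integer -/
def gsc (c : ℤ) (x : ℤ × ℤ) : ℤ × ℤ := (c * x.1, c * x.2)

/-- finite sums -/
def gsum : ℕ → (ℕ → ℤ × ℤ) → ℤ × ℤ
  | 0, _ => (0, 0)
  | n + 1, f => gadd (gsum n f) (f n)

/-- finite sums of integers -/
def isum : ℕ → (ℕ → ℤ) → ℤ
  | 0, _ => 0
  | n + 1, f => isum n f + f n

/-- bounded universal quantifier -/
def ball : ℕ → (ℕ → Bool) → Bool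
  | 0, _ => true
  | n + 1, p => ball n p && p n

/-- the complex number of a pair -/
noncomputable def toC (x : ℤ × ℤ) : ℂ := (x.1 : ℂ) + (x.2 : ℂ) * Complex.I

theorem toC_mul (x y : ℤ × ℤ) : toC (gmul x y) = toC x * toC y := by
  unfold toC gmul
  push_cast
  ring_nf
  rw [Complex.I_sq]
  ring

theorem toC_add (x y : ℤ × ℤ) : toC (gadd x y) = toC x + toC y := by
  unfold toC gadd
  push_cast
  ring

theorem toC_sub (x y : ℤ × ℤ) : toC (gsub x y) = toC x - toC y := by
  unfold toC gsub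
  push_cast
  ring

theorem toC_conj (x : ℤ × ℤ) : toC (gconj x) = star (toC x) := by
  unfold toC gconj
  rw [star_add, star_mul']
  simp

theorem toC_sc (c : ℤ) (x : ℤ × ℤ) : toC (gsc c x) = (c : ℂ) * toC x := by
  unfold toC gsc
  push_cast
  ring

theorem toC_zero : toC (0, 0) = 0 := by
  unfold toC
  simp

theorem toC_gsum (n : ℕ) (f : ℕ → ℤ × ℤ) :
    toC (gsum n f) = ∑ k ∈ Finset.range n, toC (f k) := by
  induction n with
  | zero => simp [gsum, toC_zero]
  | succ n ih => rw [gsum, toC_add, ih, Finset.sum_range_succ]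

theorem isum_eq (n : ℕ) (f : ℕ → ℤ) : isum n f = ∑ k ∈ Finset.range n, f k := by
  induction n with
  | zero => simp [isum]
  | succ n ih => rw [isum, ih, Finset.sum_range_succ]

theorem ball_iff (n : ℕ) (p : ℕ → Bool) : ball n p = true ↔ ∀ i < n, p i = true := by
  induction n with
  | zero => simp [ball]
  | succ n ih =>
    rw [ball, Bool.and_eq_true, ih]
    constructor
    · rintro ⟨h1, h2⟩ i hi
      rcases Nat.lt_succ_iff_lt_or_eq.1 hi with h | h
      · exact h1 i h
      · rw [h]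
        exact h2
    · intro h
      exact ⟨fun i hi => h i (Nat.lt_succ_of_lt hi), h n (Nat.lt_succ_self n)⟩

theorem toC_re (x : ℤ × ℤ) : (toC x).re = x.1 := by
  unfold toC
  simp

theorem toC_im (x : ℤ × ℤ) : (toC x).im = x.2 := by
  unfold toC
  simp

theorem norm_toC_le (x : ℤ × ℤ) : ‖toC x‖ ≤ ((abs x.1 + abs x.2 : ℤ) : ℝ) := by
  unfold toC
  refine (norm_add_le _ _).trans ?_
  rw [norm_mul, Complex.norm_I, mul_one]
  push_cast
  rw [← Complex.ofReal_intCast, ← Complex.ofReal_intCast, Complex.norm_real, Complex.norm_real,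
    Real.norm_eq_abs, Real.norm_eq_abs]

/-- data of a certificate -/
structure Data where
  /-- size of the matrices -/
  n : ℕ
  /-- denominator of the skew-hermitian matrix -/
  s : ℤ
  /-- denominator of the eigenvalues -/
  sa : ℤ
  /-- numerator of the norm bound -/
  tn : ℤ
  /-- denominator of the norm bound -/
  td : ℤ
  /-- numerator of the ratio -/
  cn : ℤ
  /-- denominator of the ratio -/
  cd : ℤ
  /-- scale of the factor -/
  q : ℤ
  /-- number of elements of the first set -/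
  k : ℕ
  /-- the second set -/
  T : List ℕ
  /-- eigenvalues of the first matrix -/
  a : List (ℤ × ℤ)
  /-- eigenvalues of the second matrix -/
  b : List (ℤ × ℤ)
  /-- upper triangular part of the skew-hermitian matrix -/
  K : List (List (ℤ × ℤ))
  /-- approximate Cholesky factor -/
  L : List (List (ℤ × ℤ))

namespace Data

variable (D : Data)

/-- entry of a list of lists -/
def ent (M : List (List (ℤ × ℤ))) (i j : ℕ) : ℤ × ℤ := (M.getD i []).getD j (0, 0)

/-- skew-hermitian matrix -/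
def kk (i j : ℕ) : ℤ × ℤ :=
  if i < j then ent D.K i (j - i)
  else if j < i then gsub (0, 0) (gconj (ent D.K j (i - j)))
  else (0, (ent D.K i 0).2)

/-- `V = s + K` -/
def vv (i j : ℕ) : ℤ × ℤ := if i = j then gadd (D.s, 0) (D.kk i j) else D.kk i j

/-- `V^*` -/
def vs (i j : ℕ) : ℤ × ℤ := gconj (D.vv j i)

/-- eigenvalues of `A` (numerators) -/
def av (i : ℕ) : ℤ × ℤ := D.a.getD i (0, 0)

/-- eigenvalues of `B` (numerators) -/
def bv (i : ℕ) : ℤ × ℤ := D.b.getD i (0, 0)

/-- `N = V V^*` -/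
def nn (i j : ℕ) : ℤ × ℤ := gsum D.n (fun k => gmul (D.vv i k) (D.vs k j))

/-- `W = V A V^* - V^* B V` -/
def ww (i j : ℕ) : ℤ × ℤ :=
  gsum D.n (fun k => gsub (gmul (gmul (D.vv i k) (D.av k)) (D.vs k j))
    (gmul (gmul (D.vs i k) (D.bv k)) (D.vv k j)))

/-- the block matrix -/
def mm (i j : ℕ) : ℤ × ℤ :=
  if i < D.n then
    if j < D.n then gsc (D.tn * D.sa) (D.nn i j) else gsc D.td (D.ww i (j - D.n))
  else
    if j < D.n then gsc D.td (gconj (D.ww j (i - D.n)))
    else gsc (D.tn * D.sa) (D.nn (i - D.n) (j - D.n))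

/-- the remainder -/
def rr (i j : ℕ) : ℤ × ℤ :=
  gsub (D.mm i j) (gsc (D.q * D.q)
    (gsum (D.n + D.n) (fun l => gmul (ent D.L i l) (gconj (ent D.L j l)))))

/-- diagonal dominance of row `i` -/
def row (i : ℕ) : Bool :=
  decide (isum (D.n + D.n) (fun j => if j = i then 0 else |(D.rr i j).1| + |(D.rr i j).2|) ≤
    (D.rr i i).1)

/-- separation of two eigenvalues -/
def sep (i j : ℕ) : Bool :=
  decide ((D.cn * D.tn * D.sa) ^ 2 ≤
    (D.cd * D.td) ^ 2 * ((gsub (D.av i) (D.bv j)).1 ^ 2 + (gsub (D.av i) (D.bv j)).2 ^ 2))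

/-- the complete check -/
def check : Bool :=
  decide (0 < D.s) && decide (0 < D.sa) && decide (0 < D.tn) && decide (0 < D.td) &&
  decide (0 < D.cn) && decide (0 < D.cd) &&
  ball (D.n + D.n) D.row &&
  ball D.n (fun i => ball D.n (fun j => !(decide (i < D.k)) || !(D.T.contains j) || D.sep i j))

end Data

end Pool.Agent.Lib.MP_29a676_an.Cert
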