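import Pool.Agent.Lib.MP_29a676_an.Cert.Arith

/-!
# Spectral variation of normal matrices: a certificate
-/

set_option autoImplicit false

namespace Pool.Agent.Lib.MP_29a676_an.Cert

/-- certificate of size 5, ratio 2053/2000 -/
def c5 : Data where
  n := 5
  s := 10000
  sa := 10000
  tn := 974231
  td := 1000000
  cn := 2053
  cd := 2000
  q := 10000
  k := 3
  T := [0, 1, 2]
  a := [(4228, -5833), (4776, 1481), (5598, 7693), (546, -5702), (1174, 1922)]
  b := [(-5598, -7693), (-4776, -1481), (-4228, 5833), (-1174, -1922), (-546, 5702)]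
  K := [[(0, 0), (2295, 253), (-776, -602), (3167, -1560), (593, -628)],
    [(0, 0), (-1969, -1205), (2259, -1440), (1614, -2138)],
    [(0, 0), (-379, 776), (-343, 3514)],
    [(0, 0), (-1741, 649)],
    [(0, 0)]]
  L := [[(107897, 0)],
    [(12599, -1391), (109625, 0)],
    [(-548, 425), (-10572, 6473), (107181, 0)],
    [(-6998, -3445), (1645, 1049), (-1154, -2369), (109510, 0)],
    [(-1919, -2029), (-436, -579), (-773, -7915), (10713, 3992), (108912, 0)],
    [(98772, -14241), (-2090, -23538), (-10200, 15363), (-5107, -17463), (-9431, -3872),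
     (18701, 0)],
    [(4069, -25814), (98145, -20964), (-8075, 21773), (9805, 11554), (-14680, -8223),
     (-1803, -2524), (19025, 0)],
    [(13880, 15845), (5787, 22696), (98639, -11610), (-11636, -1998), (-16414, -5118),
     (13764, -10715), (-255, -5913), (3287, 0)],
    [(4310, -17974), (-6553, 17116), (6929, -9651), (33869, 29669), (11822, 15657),
     (1854, 64286), (35553, -57895), (1417, 4603), (7608, 0)],
    [(4858, -12825), (10016, -10706), (19377, -6343), (925, 23602), (33101, 27544),
     (1616, 63605), (-38829, 56167), (-6803, 4319), (-1337, -250), (7459, 0)]]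

theorem c5_check : c5.check = true := by
  decide +kernel

end Pool.Agent.Lib.MP_29a676_an.Cert
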