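import Pool.Agent.Lib.MP_29a676_an.Cert.Arith

/-!
# Spectral variation of normal matrices: a certificate
-/

set_option autoImplicit false

namespace Pool.Agent.Lib.MP_29a676_an.Cert

/-- certificate of size 7, ratio 2061/2000 -/
def c7 : Data where
  n := 7
  s := 10000
  sa := 10000
  tn := 970344
  td := 1000000
  cn := 2061
  cd := 2000
  q := 1000
  k := 4
  T := [0, 1, 2, 3]
  a := [(5166, -8831), (4755, -1545), (4336, 5711), (4355, 11892), (1496, -9297),
     (1202, -1791), (648, 5741)]
  b := [(-4355, -11892), (-4336, -5711), (-4755, 1545), (-5166, 8831), (-648, -5741),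
     (-1202, 1791), (-1496, 9297)]
  K := [[(0, 0), (-94, -2244), (389, -806), (-447, 163), (-3856, -93), (918, 701), (-261, 17)],
    [(0, 0), (2034, 1088), (-271, -853), (172, -2614), (-2099, 2525), (-18, -799)],
    [(0, 0), (-1609, -1567), (-330, -728), (-660, 3216), (-1289, -2281)],
    [(0, 0), (243, 95), (-623, -972), (3702, 1082)],
    [(0, 0), (1579, 1147), (-646, 57)],
    [(0, 0), (1471, -1282)],
    [(0, 0)]]
  L := [[(1089584, 0)],
    [(-6140, 147672), (1110953, 0)],
    [(13358, 27650), (142633, -76306), (1108576, 0)],
    [(5616, 2057), (-9328, 29440), (-100954, 98306), (1079961, 0)],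
    [(81436, -1943), (560, 7841), (-3334, 7418), (8582, -3398), (1105581, 0)],
    [(-27246, 20738), (10809, 13020), (-5018, -24462), (-17044, 26594), (-120188, 87266),
     (1119889, 0)],
    [(10838, 726), (134, -5561), (-2009, 3556), (78464, -22925), (19470, 1723),
     (-108608, -94597), (1095979, 0)],
    [(956922, -250755), (-198795, 95005), (-151827, -27099), (64901, 117111),
     (-17034, 195458), (34380, -136446), (27959, 19852), (242668, 0)],
    [(238624, 51571), (944214, -320276), (20026, -229038), (-134136, 88234),
     (135962, -41171), (179063, 94824), (-71899, 55108), (38313, 66807), (219851, 0)],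
    [(157275, -107234), (-66774, -235544), (944941, -312921), (-77304, 198419),
     (63683, -92068), (-169982, -7051), (-110423, 125650), (-51133, -108389),
     (57279, -4846), (191241, 0)],
    [(-21315, 156831), (163388, 27582), (112945, 180643), (960028, -221997),
     (15936, 50816), (99358, -122409), (-68420, 164511), (207303, 75802), (-19605, -76459),
     (6861, -53120), (32739, 0)],
    [(64557, 182146), (-164941, 71388), (-101168, 18895), (44737, 17534), (387830, 250057),
     (25150, -194663), (41298, 109944), (-246340, -425686), (776692, -143809),
     (8054, -99201), (-14491, 5624), (73341, 0)],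
    [(-162652, -71882), (-94396, 134025), (189885, -103140), (-155197, -5751),
     (-234362, -78317), (400986, 214343), (-179919, -70105), (603350, 1648),
     (210558, -363211), (-526514, 144443), (2371, -14907), (9934, -39660), (68072, 0)],
    [(41348, 52080), (98536, -57875), (133804, 26791), (122396, 177465), (37949, 142938),
     (18188, -232134), (372084, 225193), (-295722, -172494), (-286765, 246866),
     (-756115, -188731), (-47194, -86857), (-17536, -13456), (5219, 31370), (48353, 0)]]

theorem c7_check : c7.check = true := by
  decide +kernel

end Pool.Agent.Lib.MP_29a676_an.Cert
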