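import Mathlib

/-!
# The norm of the difference of two normal matrices from a positivity certificate

`V` is a normal invertible matrix, `U = V⁻¹ V^*` is unitary, `A = diag a`, `B = U diag b U^*`, so that
`V (A - B) V^* = V A V^* - V^* (diag b) V`.
-/

set_option autoImplicit false

namespace Pool.Agent.Lib.MP_29a676_an.Cert

open Matrix
open scoped Matrix.Norms.L2Operator

variable {n : ℕ}

/-- square of the euclidean norm -/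
noncomputable def nsq (v : Fin n → ℂ) : ℝ := (star v ⬝ᵥ v).re

theorem nsq_eq (v : Fin n → ℂ) : nsq v = ∑ i, ‖v i‖ ^ 2 := by
  unfold nsq
  rw [dotProduct, Complex.re_sum]
  refine Finset.sum_congr rfl fun i _ => ?_
  rw [Pi.star_apply, Complex.star_def, ← Complex.normSq_eq_conj_mul_self, Complex.ofReal_re,
    Complex.normSq_eq_norm_sq]

theorem opNorm_le (M : Matrix (Fin n) (Fin n) ℂ) (c : ℝ) (hc : 0 ≤ c)
    (h : ∀ x : Fin n → ℂ, nsq (M *ᵥ x) ≤ c ^ 2 * nsq x) : ‖M‖ ≤ c := by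
  rw [Matrix.l2_opNorm_def]
  apply ContinuousLinearMap.opNorm_le_bound _ hc
  intro x
  have h1 := h x.ofLp
  rw [nsq_eq, nsq_eq] at h1
  have h2 : ‖x‖ ^ 2 = ∑ i, ‖x.ofLp i‖ ^ 2 := EuclideanSpace.norm_sq_eq x
  have h3 : ‖(Matrix.toEuclideanLin.trans LinearMap.toContinuousLinearMap) M x‖ ^ 2 =
      ∑ i, ‖(M *ᵥ x.ofLp) i‖ ^ 2 := EuclideanSpace.norm_sq_eq _
  rw [← h2, ← h3, ← mul_pow] at h1
  exact le_of_sq_le_sq h1 (by positivity)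

theorem star_dot_mulVec (V : Matrix (Fin n) (Fin n) ℂ) (z p : Fin n → ℂ) :
    star z ⬝ᵥ (V *ᵥ p) = star (Vᴴ *ᵥ z) ⬝ᵥ p := by
  rw [Matrix.star_mulVec, Matrix.conjTranspose_conjTranspose, Matrix.dotProduct_mulVec]

theorem nsq_mulVec (V : Matrix (Fin n) (Fin n) ℂ) (y : Fin n → ℂ) :
    nsq (V *ᵥ y) = (star y ⬝ᵥ ((Vᴴ * V) *ᵥ y)).re := by
  unfold nsq
  rw [← Matrix.mulVec_mulVec, star_dot_mulVec Vᴴ y, Matrix.conjTranspose_conjTranspose]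

theorem nsq_normal (V : Matrix (Fin n) (Fin n) ℂ) (hVV : V * Vᴴ = Vᴴ * V) (y : Fin n → ℂ) :
    nsq (Vᴴ *ᵥ y) = nsq (V *ᵥ y) := by
  rw [nsq_mulVec, nsq_mulVec, Matrix.conjTranspose_conjTranspose, hVV]

theorem nsq_smul (c : ℝ) (y : Fin n → ℂ) : nsq ((c : ℂ) • y) = c ^ 2 * nsq y := by
  rw [nsq_eq, nsq_eq, Finset.mul_sum]
  refine Finset.sum_congr rfl fun i _ => ?_
  rw [Pi.smul_apply, smul_eq_mul, norm_mul, mul_pow, Complex.norm_real, Real.norm_eq_abs, sq_abs]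

/-- the unitary matrix -/
noncomputable def UU (V : Matrix (Fin n) (Fin n) ℂ) : Matrix (Fin n) (Fin n) ℂ := V⁻¹ * Vᴴ

theorem inv_conj (V : Matrix (Fin n) (Fin n) ℂ) (hdet : IsUnit V.det) :
    (V⁻¹)ᴴ * Vᴴ = 1 ∧ Vᴴ * (V⁻¹)ᴴ = 1 := by
  constructor
  · rw [← Matrix.conjTranspose_mul, Matrix.mul_nonsing_inv _ hdet, Matrix.conjTranspose_one]
  · rw [← Matrix.conjTranspose_mul, Matrix.nonsing_inv_mul _ hdet, Matrix.conjTranspose_one]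

theorem UU_unitary (V : Matrix (Fin n) (Fin n) ℂ) (hVV : V * Vᴴ = Vᴴ * V)
    (hdet : IsUnit V.det) : UU V * (UU V)ᴴ = 1 ∧ (UU V)ᴴ * UU V = 1 := by
  have h1 : (UU V)ᴴ = V * (V⁻¹)ᴴ := by
    unfold UU
    rw [Matrix.conjTranspose_mul, Matrix.conjTranspose_conjTranspose]
  have h2 : UU V * (UU V)ᴴ = 1 := by
    rw [h1]
    unfold UU
    calc V⁻¹ * Vᴴ * (V * (V⁻¹)ᴴ) = V⁻¹ * (Vᴴ * V) * (V⁻¹)ᴴ := by noncomm_ring
      _ = V⁻¹ * (V * Vᴴ) * (V⁻¹)ᴴ := by rw [hVV]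
      _ = (V⁻¹ * V) * (Vᴴ * (V⁻¹)ᴴ) := by noncomm_ring
      _ = 1 := by rw [Matrix.nonsing_inv_mul _ hdet, (inv_conj V hdet).2, mul_one]
  exact ⟨h2, mul_eq_one_comm.1 h2⟩

theorem norm_bound (V : Matrix (Fin n) (Fin n) ℂ) (hVV : V * Vᴴ = Vᴴ * V)
    (hdet : IsUnit V.det) (A B : Matrix (Fin n) (Fin n) ℂ) (α β : ℝ) (hα : 0 < α) (hβ : 0 < β)
    (hpsd : ∀ z y : Fin n → ℂ, 0 ≤ α * (nsq (Vᴴ *ᵥ z) + nsq (V *ᵥ y)) +
      2 * β * (star z ⬝ᵥ ((V * A * Vᴴ - Vᴴ * B * V) *ᵥ y)).re) :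
    ‖A - UU V * B * (UU V)ᴴ‖ ≤ α / β := by
  obtain ⟨i1, i2⟩ := inv_conj V hdet
  set D := A - UU V * B * (UU V)ᴴ with hD
  have hU : (UU V)ᴴ = V * (V⁻¹)ᴴ := by
    unfold UU
    rw [Matrix.conjTranspose_mul, Matrix.conjTranspose_conjTranspose]
  have hW : V * A * Vᴴ - Vᴴ * B * V = V * (D * Vᴴ) := by
    rw [hD, hU]
    unfold UU
    calc V * A * Vᴴ - Vᴴ * B * V = V * A * Vᴴ - (V * V⁻¹) * Vᴴ * B * V * ((V⁻¹)ᴴ * Vᴴ) := by
          rw [Matrix.mul_nonsing_inv _ hdet, i1, one_mul, mul_one]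
      _ = V * ((A - V⁻¹ * Vᴴ * B * (V * (V⁻¹)ᴴ)) * Vᴴ) := by noncomm_ring
  apply opNorm_le _ _ (by positivity)
  intro x
  set y := (V⁻¹)ᴴ *ᵥ x with hy
  have hx : Vᴴ *ᵥ y = x := by
    rw [hy, Matrix.mulVec_mulVec, i2, Matrix.one_mulVec]
  set p := D *ᵥ x with hp
  set z := (V⁻¹)ᴴ *ᵥ ((((-β : ℝ)) : ℂ) • p) with hz
  have hz' : Vᴴ *ᵥ z = (((-β : ℝ)) : ℂ) • p := by
    rw [hz, Matrix.mulVec_mulVec, i2, Matrix.one_mulVec]
  have h1 := hpsd z ((α : ℂ) • y)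
  have h2 : star z ⬝ᵥ ((V * A * Vᴴ - Vᴴ * B * V) *ᵥ ((α : ℂ) • y)) =
      ((-(α * β) : ℝ) : ℂ) * (star p ⬝ᵥ p) := by
    rw [hW, ← Matrix.mulVec_mulVec, ← Matrix.mulVec_mulVec, Matrix.mulVec_smul, hx,
      Matrix.mulVec_smul, ← hp, star_dot_mulVec, hz', star_smul, smul_dotProduct,
      dotProduct_smul]
    simp only [smul_eq_mul, Complex.star_def, Complex.conj_ofReal]
    push_cast
    ring
  have h3 : (star z ⬝ᵥ ((V * A * Vᴴ - Vᴴ * B * V) *ᵥ ((α : ℂ) • y))).re =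
      -(α * β) * nsq p := by
    rw [h2, Complex.re_ofReal_mul]
    rfl
  rw [h3, hz', nsq_smul, Matrix.mulVec_smul, nsq_smul, ← nsq_normal V hVV, hx] at h1
  have h4 : α * (β ^ 2 * nsq p) ≤ α * (α ^ 2 * nsq x) := by nlinarith
  have h5 := le_of_mul_le_mul_left h4 hα
  rw [div_pow, div_mul_eq_mul_div, le_div_iff₀ (by positivity)]
  linarith

end Pool.Agent.Lib.MP_29a676_an.Cert
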