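import Pool.Agent.Lib.MP_29a676_an.Cert.Psd
import Pool.Agent.Lib.MP_29a676_an.Cert.Norm

/-!
# From a certificate to a pair of normal matrices
-/

set_option autoImplicit false

namespace Pool.Agent.Lib.MP_29a676_an.Cert

open Matrix Polynomial
open scoped Matrix.Norms.L2Operator

/-- There are normal `n × n` matrices `A ≠ B`, with eigenvalues `α`, `β` (listed with multiplicity), such
that for every permutation `σ` some `|α k - β (σ k)|` is at least `c ‖A - B‖`: `c_n ≥ c`. -/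
def HasRatio (n : ℕ) (c : ℝ) : Prop :=
  ∃ (A B : Matrix (Fin n) (Fin n) ℂ) (α β : Fin n → ℂ), IsStarNormal A ∧ IsStarNormal B ∧
    A.charpoly = ∏ i, (X - C (α i)) ∧ B.charpoly = ∏ i, (X - C (β i)) ∧ A ≠ B ∧
    ∀ σ : Equiv.Perm (Fin n), ∃ k, c * ‖A - B‖ ≤ ‖α k - β (σ k)‖

namespace Data

variable (D : Data)

/-- the matrix `V` -/
noncomputable def Vm : Matrix (Fin D.n) (Fin D.n) ℂ := Matrix.of fun i j => toC (D.vv i j)

/-- the skew-hermitian matrix -/
noncomputable def Km : Matrix (Fin D.n) (Fin D.n) ℂ := Matrix.of fun i j => toC (D.kk i j)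

/-- eigenvalues of `A` -/
noncomputable def al : Fin D.n → ℂ := fun i => toC (D.av i)

/-- eigenvalues of `B` -/
noncomputable def be : Fin D.n → ℂ := fun i => toC (D.bv i)

theorem Km_skew : D.Kmᴴ = -D.Km := by
  ext i j
  rw [Matrix.conjTranspose_apply, Matrix.neg_apply]
  unfold Km kk
  rw [Matrix.of_apply, Matrix.of_apply]
  rcases lt_trichotomy (i : ℕ) (j : ℕ) with h | h | h
  · rw [if_neg (by omega), if_pos h, if_pos h, toC_sub, toC_conj, toC_zero, zero_sub, star_neg,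
      star_star]
  · have hij : i = j := Fin.ext h
    subst hij
    rw [if_neg (by omega), if_neg (by omega)]
    unfold toC
    simp
  · rw [if_pos h, if_neg (by omega), if_pos h, toC_sub, toC_conj, toC_zero, zero_sub, neg_neg]

theorem Vm_eq : D.Vm = (D.s : ℂ) • (1 : Matrix (Fin D.n) (Fin D.n) ℂ) + D.Km := by
  ext i j
  rw [Matrix.add_apply, Matrix.smul_apply]
  unfold Vm vv Km
  rw [Matrix.of_apply, Matrix.of_apply]
  by_cases h : i = j
  · subst h
    rw [if_pos rfl, toC_add, Matrix.one_apply_eq]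
    unfold toC
    simp
  · have h' : ¬ ((i : ℕ) = (j : ℕ)) := fun e => h (Fin.ext e)
    rw [if_neg h', Matrix.one_apply_ne h, smul_zero, zero_add]

theorem Vm_conj : D.Vmᴴ = (D.s : ℂ) • (1 : Matrix (Fin D.n) (Fin D.n) ℂ) - D.Km := by
  rw [Vm_eq, Matrix.conjTranspose_add, Matrix.conjTranspose_smul, Matrix.conjTranspose_one, Km_skew,
    sub_eq_add_neg]
  congr 2
  simp

theorem Vm_normal : D.Vm * D.Vmᴴ = D.Vmᴴ * D.Vm := by
  rw [Vm_conj, Vm_eq]
  simp only [add_mul, mul_add, sub_mul, mul_sub, smul_mul_assoc, mul_smul_comm, one_mul, mul_one,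
    smul_add, smul_sub]
  abel

theorem Vm_det (hs : 0 < D.s) : IsUnit D.Vm.det := by
  rw [isUnit_iff_ne_zero]
  intro h0
  obtain ⟨v, hv, hv0⟩ := Matrix.exists_mulVec_eq_zero_iff.2 h0
  have h1 : nsq (D.Vmᴴ *ᵥ v) = 0 := by
    rw [nsq_normal _ D.Vm_normal, hv0, nsq_eq]
    simp
  have h2 : D.Vmᴴ *ᵥ v = 0 := by
    rw [nsq_eq, Finset.sum_eq_zero_iff_of_nonneg (fun i _ => by positivity)] at h1
    funext i
    have := h1 i (Finset.mem_univ i)
    simpa using this
  rw [Vm_eq, Matrix.add_mulVec, Matrix.smul_mulVec, Matrix.one_mulVec] at hv0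
  rw [Vm_conj, Matrix.sub_mulVec, Matrix.smul_mulVec, Matrix.one_mulVec] at h2
  apply hv
  have h3 : ((2 * D.s : ℤ) : ℂ) • v = 0 := by
    calc ((2 * D.s : ℤ) : ℂ) • v = ((D.s : ℂ) • v + D.Km *ᵥ v) + ((D.s : ℂ) • v - D.Km *ᵥ v) := by
          push_cast
          rw [two_mul, add_smul]
          abel
      _ = 0 := by rw [hv0, h2, add_zero]
  rcases smul_eq_zero.1 h3 with h | h
  · exfalso
    have h4 : (2 * D.s : ℤ) = 0 := by exact_mod_cast h
    omega
  · exact h

theorem nn_eq (i j : Fin D.n) : toC (D.nn i j) = (D.Vm * D.Vmᴴ) i j := by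
  unfold nn
  rw [toC_gsum, Matrix.mul_apply, ← Fin.sum_univ_eq_sum_range
    (fun k => toC (gmul (D.vv i k) (D.vs k j)))]
  refine Finset.sum_congr rfl fun k _ => ?_
  rw [toC_mul, Matrix.conjTranspose_apply]
  unfold Vm vs
  rw [Matrix.of_apply, Matrix.of_apply, toC_conj]

theorem ww_eq (i j : Fin D.n) : toC (D.ww i j) =
    (D.Vm * diagonal D.al * D.Vmᴴ - D.Vmᴴ * diagonal D.be * D.Vm) i j := by
  unfold ww
  rw [toC_gsum, Matrix.sub_apply, Matrix.mul_apply, Matrix.mul_apply, ← Finset.sum_sub_distrib,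
    ← Fin.sum_univ_eq_sum_range (fun k => toC (gsub (gmul (gmul (D.vv i k) (D.av k)) (D.vs k j))
    (gmul (gmul (D.vs i k) (D.bv k)) (D.vv k j))))]
  refine Finset.sum_congr rfl fun k _ => ?_
  rw [toC_sub, toC_mul, toC_mul, toC_mul, toC_mul, Matrix.mul_diagonal, Matrix.mul_diagonal,
    Matrix.conjTranspose_apply, Matrix.conjTranspose_apply]
  unfold Vm vs al be
  rw [Matrix.of_apply, Matrix.of_apply, Matrix.of_apply, Matrix.of_apply, toC_conj, toC_conj]

theorem nn_herm (i j : Fin D.n) : toC (D.nn j i) = star (toC (D.nn i j)) := by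
  rw [nn_eq, nn_eq, ← Matrix.conjTranspose_apply, Matrix.conjTranspose_mul,
    Matrix.conjTranspose_conjTranspose]

theorem mm_ll (i j : Fin D.n) : D.mm (Fin.castAdd D.n i) (Fin.castAdd D.n j) =
    gsc (D.tn * D.sa) (D.nn i j) := by
  unfold mm
  rw [if_pos (by simp), if_pos (by simp)]
  rfl

theorem mm_lr (i j : Fin D.n) : D.mm (Fin.castAdd D.n i) (Fin.natAdd D.n j) =
    gsc D.td (D.ww i j) := by
  unfold mm
  rw [if_pos (by simp), if_neg (by simp)]
  simp

theorem mm_rl (i j : Fin D.n) : D.mm (Fin.natAdd D.n i) (Fin.castAdd D.n j) =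
    gsc D.td (gconj (D.ww j i)) := by
  unfold mm
  rw [if_neg (by simp), if_pos (by simp)]
  simp

theorem mm_rr (i j : Fin D.n) : D.mm (Fin.natAdd D.n i) (Fin.natAdd D.n j) =
    gsc (D.tn * D.sa) (D.nn i j) := by
  unfold mm
  rw [if_neg (by simp), if_neg (by simp)]
  simp

theorem mm_herm (i j : Fin (D.n + D.n)) : toC (D.mm j i) = star (toC (D.mm i j)) := by
  refine Fin.addCases (fun i => ?_) (fun i => ?_) i <;>
    refine Fin.addCases (fun j => ?_) (fun j => ?_) j
  · rw [mm_ll, mm_ll, toC_sc, toC_sc, star_mul', nn_herm]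
    simp
  · rw [mm_lr, mm_rl, toC_sc, toC_sc, star_mul', toC_conj]
    simp
  · rw [mm_lr, mm_rl, toC_sc, toC_sc, star_mul', toC_conj]
    simp
  · rw [mm_rr, mm_rr, toC_sc, toC_sc, star_mul', nn_herm]
    simp

/-- the quadratic form of the block matrix -/
theorem form_eq (z y : Fin D.n → ℂ) :
    (∑ i : Fin (D.n + D.n), ∑ j : Fin (D.n + D.n),
      star (Fin.append z y i) * toC (D.mm i j) * Fin.append z y j).re =
    (D.tn * D.sa : ℝ) * (nsq (D.Vmᴴ *ᵥ z) + nsq (D.Vm *ᵥ y)) +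
      2 * (D.td : ℝ) * (star z ⬝ᵥ ((D.Vm * diagonal D.al * D.Vmᴴ -
        D.Vmᴴ * diagonal D.be * D.Vm) *ᵥ y)).re := by
  set W := D.Vm * diagonal D.al * D.Vmᴴ - D.Vmᴴ * diagonal D.be * D.Vm with hW
  have key : ∀ (M : Matrix (Fin D.n) (Fin D.n) ℂ) (f g : Fin D.n → ℂ),
      star f ⬝ᵥ (M *ᵥ g) = ∑ i, ∑ j, star (f i) * M i j * g j := by
    intro M f g
    rw [dotProduct]
    refine Finset.sum_congr rfl fun i _ => ?_
    rw [Matrix.mulVec, dotProduct, Finset.mul_sum, Pi.star_apply]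
    refine Finset.sum_congr rfl fun j _ => ?_
    ring
  have h1 : ∀ f : Fin D.n → ℂ, nsq (D.Vmᴴ *ᵥ f) = (star f ⬝ᵥ ((D.Vm * D.Vmᴴ) *ᵥ f)).re := by
    intro f
    rw [nsq_mulVec, Matrix.conjTranspose_conjTranspose]
  have h2 : ∑ i : Fin (D.n + D.n), ∑ j : Fin (D.n + D.n),
      star (Fin.append z y i) * toC (D.mm i j) * Fin.append z y j =
      ((D.tn * D.sa : ℤ) : ℂ) * (star z ⬝ᵥ ((D.Vm * D.Vmᴴ) *ᵥ z)) +
      (D.td : ℂ) * (star z ⬝ᵥ (W *ᵥ y)) + ((D.td : ℂ) * star (star z ⬝ᵥ (W *ᵥ y)) +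
      ((D.tn * D.sa : ℤ) : ℂ) * (star y ⬝ᵥ ((D.Vm * D.Vmᴴ) *ᵥ y))) := by
    rw [Fin.sum_univ_add]
    simp_rw [Fin.sum_univ_add, Fin.append_left, Fin.append_right, mm_ll, mm_lr, mm_rl, mm_rr,
      toC_sc, toC_conj, nn_eq, ww_eq, ← hW, Finset.sum_add_distrib]
    have k2 : star (star z ⬝ᵥ (W *ᵥ y)) = ∑ i, ∑ j, star (y i) * star (W j i) * z j := by
      rw [key, star_sum, Finset.sum_comm]
      refine Finset.sum_congr rfl fun i _ => ?_
      rw [star_sum]
      refine Finset.sum_congr rfl fun j _ => ?_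
      rw [star_mul', star_mul', star_star]
      ring
    rw [k2, key, key, key]
    simp_rw [Finset.mul_sum]
    refine congrArg₂ (· + ·) (congrArg₂ (· + ·) ?_ ?_) (congrArg₂ (· + ·) ?_ ?_) <;>
      exact Finset.sum_congr rfl fun i _ => Finset.sum_congr rfl fun j _ => by ring
  rw [h2, ← nsq_normal _ D.Vm_normal, h1, h1]
  have k1 : ∀ (c : ℤ) (w : ℂ), ((c : ℂ) * w).re = (c : ℝ) * w.re := by
    intro c w
    rw [← Complex.ofReal_intCast, Complex.re_ofReal_mul]
  simp only [Complex.add_re, k1, Complex.star_def, Complex.conj_re]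
  push_cast
  ring

theorem psd (hs : ∀ i < D.n + D.n, D.row i = true) (z y : Fin D.n → ℂ) :
    0 ≤ (D.tn * D.sa : ℝ) * (nsq (D.Vmᴴ *ᵥ z) + nsq (D.Vm *ᵥ y)) +
      2 * (D.td : ℝ) * (star z ⬝ᵥ ((D.Vm * diagonal D.al * D.Vmᴴ -
        D.Vmᴴ * diagonal D.be * D.Vm) *ᵥ y)).re := by
  rw [← form_eq]
  have hr : ∀ i j : Fin (D.n + D.n), toC (D.mm i j) - (((D.q : ℝ) * D.q : ℝ) : ℂ) *
      ∑ l : Fin (D.n + D.n), toC (ent D.L i l) * star (toC (ent D.L j l)) =
      toC (D.rr i j) := by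
    intro i j
    unfold rr
    rw [toC_sub, toC_sc, toC_gsum, ← Fin.sum_univ_eq_sum_range
      (fun l => toC (gmul (ent D.L i l) (gconj (ent D.L j l))))]
    congr 1
    push_cast
    congr 1
    refine Finset.sum_congr rfl fun l _ => ?_
    rw [toC_mul, toC_conj]
  refine psd_cert (fun i j : Fin (D.n + D.n) => toC (D.mm i j))
    (fun i l : Fin (D.n + D.n) => toC (ent D.L i l)) ((D.q : ℝ) * D.q) (mul_self_nonneg _)
    (fun i j => D.mm_herm i j) ?_ (Fin.append z y)
  intro i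
  simp_rw [hr]
  rw [toC_re]
  have h1 := hs i i.2
  unfold row at h1
  rw [decide_eq_true_eq, isum_eq, ← Fin.sum_univ_eq_sum_range
    (fun j => if j = (i : ℕ) then (0 : ℤ) else |(D.rr i j).1| + |(D.rr i j).2|)] at h1
  have h2 : ((∑ j : Fin (D.n + D.n), if (j : ℕ) = (i : ℕ) then (0 : ℤ) else
      |(D.rr i j).1| + |(D.rr i j).2| : ℤ) : ℝ) ≤ ((D.rr i i).1 : ℝ) := by
    exact_mod_cast h1
  refine le_trans ?_ h2
  rw [Int.cast_sum]
  apply Finset.sum_le_sum
  intro j _
  by_cases h : j = i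
  · subst h
    simp
  · have h' : ¬ ((j : ℕ) = (i : ℕ)) := fun e => h (Fin.ext e)
    rw [if_neg h, if_neg h']
    exact norm_toC_le _

/-- the first matrix -/
noncomputable def Am : Matrix (Fin D.n) (Fin D.n) ℂ := diagonal D.al

/-- the second matrix -/
noncomputable def Bm : Matrix (Fin D.n) (Fin D.n) ℂ := UU D.Vm * diagonal D.be * (UU D.Vm)ᴴ

theorem Am_normal : IsStarNormal D.Am := by
  constructor
  unfold Am
  rw [Commute, SemiconjBy, Matrix.star_eq_conjTranspose, Matrix.diagonal_conjTranspose,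
    Matrix.diagonal_mul_diagonal, Matrix.diagonal_mul_diagonal]
  congr 1
  funext i
  rw [mul_comm]

theorem Bm_normal (hs : 0 < D.s) : IsStarNormal D.Bm := by
  obtain ⟨u1, u2⟩ := UU_unitary D.Vm D.Vm_normal (D.Vm_det hs)
  constructor
  have h0 : D.Bmᴴ = UU D.Vm * diagonal (star D.be) * (UU D.Vm)ᴴ := by
    unfold Bm
    rw [Matrix.conjTranspose_mul, Matrix.conjTranspose_mul, Matrix.conjTranspose_conjTranspose,
      Matrix.diagonal_conjTranspose, mul_assoc]
  rw [Commute, SemiconjBy, Matrix.star_eq_conjTranspose, h0]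
  unfold Bm
  have key : ∀ f g : Fin D.n → ℂ, UU D.Vm * diagonal f * (UU D.Vm)ᴴ *
      (UU D.Vm * diagonal g * (UU D.Vm)ᴴ) =
      UU D.Vm * diagonal (fun i => f i * g i) * (UU D.Vm)ᴴ := by
    intro f g
    calc UU D.Vm * diagonal f * (UU D.Vm)ᴴ * (UU D.Vm * diagonal g * (UU D.Vm)ᴴ) =
        UU D.Vm * diagonal f * ((UU D.Vm)ᴴ * UU D.Vm) * diagonal g * (UU D.Vm)ᴴ := by
          simp only [mul_assoc]
      _ = UU D.Vm * (diagonal f * diagonal g) * (UU D.Vm)ᴴ := by
          rw [u2, mul_one, mul_assoc (UU D.Vm)]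
      _ = _ := by rw [Matrix.diagonal_mul_diagonal]
  rw [key, key]
  congr 3
  funext i
  rw [mul_comm]

theorem Am_charpoly : D.Am.charpoly = ∏ i, (X - C (D.al i)) := Matrix.charpoly_diagonal _

theorem Bm_charpoly (hs : 0 < D.s) : D.Bm.charpoly = ∏ i, (X - C (D.be i)) := by
  obtain ⟨u1, u2⟩ := UU_unitary D.Vm D.Vm_normal (D.Vm_det hs)
  have h1 := Matrix.charpoly_units_conj (⟨UU D.Vm, (UU D.Vm)ᴴ, u1, u2⟩ : (Matrix _ _ ℂ)ˣ)
    (diagonal D.be)
  rw [Matrix.charpoly_diagonal] at h1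
  change (UU D.Vm * diagonal D.be * (UU D.Vm)⁻¹).charpoly = _ at h1
  rw [Matrix.inv_eq_right_inv u1] at h1
  exact h1

/-- equal characteristic polynomials have equally many roots in a set -/
theorem card_eq_of_prod {n : ℕ} (α β : Fin n → ℂ)
    (h : ∏ i, (X - C (α i)) = ∏ i, (X - C (β i))) (P : ℂ → Prop) [DecidablePred P] :
    (Finset.univ.filter (fun i => P (α i))).card = (Finset.univ.filter (fun i => P (β i))).card := by
  have h1 : ∀ γ : Fin n → ℂ, (∏ i, (X - C (γ i))).roots = Finset.univ.val.map γ := by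
    intro γ
    exact Polynomial.roots_multiset_prod_X_sub_C (Finset.univ.val.map γ) |> fun e => by
      rw [← e, Multiset.map_map]
      rfl
  have h2 : Finset.univ.val.map α = Finset.univ.val.map β := by
    rw [← h1, ← h1, h]
  have h3 := congrArg (Multiset.countP P) h2
  rw [Multiset.countP_map, Multiset.countP_map] at h3
  exact h3

theorem main (h : D.check = true) (hcard : D.n <
    (Finset.univ.filter (fun i : Fin D.n => (i : ℕ) < D.k)).card +
    (Finset.univ.filter (fun j : Fin D.n => D.T.contains (j : ℕ) = true)).card) :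
    HasRatio D.n ((D.cn : ℝ) / D.cd) := by
  unfold check at h
  simp only [Bool.and_eq_true, decide_eq_true_eq, ball_iff, Bool.or_eq_true,
    Bool.not_eq_true'] at h
  obtain ⟨⟨⟨⟨⟨⟨⟨hs, hsa⟩, htn⟩, htd⟩, hcn⟩, hcd⟩, hrow⟩, hsep⟩ := h
  have htn' : (0 : ℝ) < D.tn := by exact_mod_cast htn
  have hsa' : (0 : ℝ) < D.sa := by exact_mod_cast hsa
  have htd' : (0 : ℝ) < D.td := by exact_mod_cast htd
  have hcn' : (0 : ℝ) < D.cn := by exact_mod_cast hcn
  have hcd' : (0 : ℝ) < D.cd := by exact_mod_cast hcd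
  have hnorm : ‖D.Am - D.Bm‖ ≤ (D.tn * D.sa : ℝ) / D.td :=
    norm_bound D.Vm D.Vm_normal (D.Vm_det hs) (diagonal D.al) (diagonal D.be) _ _
      (by positivity) htd' (fun z y => D.psd hrow z y)
  have hfar : ∀ i j : Fin D.n, (i : ℕ) < D.k → D.T.contains (j : ℕ) = true →
      (D.cn : ℝ) / D.cd * ((D.tn * D.sa : ℝ) / D.td) ≤ ‖D.al i - D.be j‖ := by
    intro i j hi hj
    have h1 := hsep i i.2 j j.2
    have h2 : D.sep i j = true := by
      rcases h1 with (h1 | h1) | h1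
      · simp [hi] at h1
      · rw [hj] at h1
        exact absurd h1 (by simp)
      · exact h1
    unfold sep at h2
    rw [decide_eq_true_eq] at h2
    have h3 : D.al i - D.be j = toC (gsub (D.av i) (D.bv j)) := by
      rw [toC_sub]
      rfl
    have h4 : ‖D.al i - D.be j‖ ^ 2 = ((gsub (D.av i) (D.bv j)).1 : ℝ) ^ 2 +
        ((gsub (D.av i) (D.bv j)).2 : ℝ) ^ 2 := by
      rw [h3, ← Complex.normSq_eq_norm_sq, Complex.normSq_apply, toC_re, toC_im]
      ring
    have h5 : ((D.cn : ℝ) * D.tn * D.sa) ^ 2 ≤ (D.cd * D.td) ^ 2 * ‖D.al i - D.be j‖ ^ 2 := by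
      rw [h4]
      exact_mod_cast h2
    have h6 : (D.cn : ℝ) * D.tn * D.sa ≤ D.cd * D.td * ‖D.al i - D.be j‖ := by
      rw [← mul_pow] at h5
      exact le_of_sq_le_sq h5 (by positivity)
    rw [div_mul_div_comm, div_le_iff₀ (by positivity)]
    nlinarith
  have hpos : 0 < (D.cn : ℝ) / D.cd * ((D.tn * D.sa : ℝ) / D.td) := by positivity
  refine ⟨D.Am, D.Bm, D.al, D.be, D.Am_normal, D.Bm_normal hs, D.Am_charpoly, D.Bm_charpoly hs,
    ?_, ?_⟩
  · intro hAB
    classical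
    have h1 := D.Am_charpoly
    rw [hAB, D.Bm_charpoly hs] at h1
    have h2 := card_eq_of_prod D.al D.be h1.symm (fun v => ∃ i : Fin D.n, (i : ℕ) < D.k ∧ D.al i = v)
    have h3 : (Finset.univ.filter (fun i : Fin D.n => (i : ℕ) < D.k)).card ≤
        (Finset.univ.filter (fun i => ∃ i' : Fin D.n, (i' : ℕ) < D.k ∧ D.al i' = D.al i)).card := by
      apply Finset.card_le_card
      intro i hi
      rw [Finset.mem_filter] at hi ⊢
      exact ⟨hi.1, i, hi.2, rfl⟩
    have h4 : Disjoint (Finset.univ.filter (fun j => ∃ i' : Fin D.n, (i' : ℕ) < D.k ∧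
        D.al i' = D.be j)) (Finset.univ.filter (fun j : Fin D.n => D.T.contains (j : ℕ) = true)) := by
      rw [Finset.disjoint_filter]
      rintro j _ ⟨i', hi', he⟩ hj
      have := hfar i' j hi' hj
      rw [he, sub_self, norm_zero] at this
      linarith
    have h5 := Finset.card_le_univ ((Finset.univ.filter (fun j => ∃ i' : Fin D.n, (i' : ℕ) < D.k ∧
        D.al i' = D.be j)) ∪
        (Finset.univ.filter (fun j : Fin D.n => D.T.contains (j : ℕ) = true)))
    rw [Finset.card_union_of_disjoint h4, Fintype.card_fin] at h5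
    omega
  · intro σ
    have h1 : ∃ i : Fin D.n, (i : ℕ) < D.k ∧ D.T.contains ((σ i : Fin D.n) : ℕ) = true := by
      by_contra hcon
      push Not at hcon
      have h2 : Disjoint ((Finset.univ.filter (fun i : Fin D.n => (i : ℕ) < D.k)).map
          σ.toEmbedding)
          (Finset.univ.filter (fun j : Fin D.n => D.T.contains (j : ℕ) = true)) := by
        rw [Finset.disjoint_left]
        intro j hj hj2
        rw [Finset.mem_map] at hj
        obtain ⟨i, hi, rfl⟩ := hj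
        rw [Finset.mem_filter] at hi hj2
        exact hcon i hi.2 hj2.2
      have h3 := Finset.card_le_univ ((Finset.univ.filter (fun i : Fin D.n => (i : ℕ) < D.k)).map
          σ.toEmbedding ∪ (Finset.univ.filter (fun j : Fin D.n => D.T.contains (j : ℕ) = true)))
      rw [Finset.card_union_of_disjoint h2, Finset.card_map, Fintype.card_fin] at h3
      omega
    obtain ⟨i, hi, hi2⟩ := h1
    refine ⟨i, le_trans ?_ (hfar i (σ i) hi hi2)⟩
    exact mul_le_mul_of_nonneg_left hnorm (by positivity)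

end Data

end Pool.Agent.Lib.MP_29a676_an.Cert
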