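import Pool.Agent.Lib.MP_29a676_an.Cert.Main

/-!
# Adding one eigenvalue
-/

set_option autoImplicit false

namespace Pool.Agent.Lib.MP_29a676_an.Cert

open Matrix Polynomial
open scoped Matrix.Norms.L2Operator

theorem nsq_mulVec_le {n : ℕ} (M : Matrix (Fin n) (Fin n) ℂ) (x : Fin n → ℂ) :
    nsq (M *ᵥ x) ≤ ‖M‖ ^ 2 * nsq x := by
  have h1 := Matrix.l2_opNorm_mulVec M (WithLp.toLp 2 x)
  have h2 := pow_le_pow_left₀ (norm_nonneg _) h1 2
  rw [mul_pow, EuclideanSpace.norm_sq_eq, EuclideanSpace.norm_sq_eq] at h2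
  rw [nsq_eq, nsq_eq]
  exact h2

/-- `M ⊕ ω` -/
def ext {n : ℕ} (M : Matrix (Fin n) (Fin n) ℂ) (w : ℂ) :
    Matrix (Fin (n + 1)) (Fin (n + 1)) ℂ :=
  Matrix.reindex finSumFinEquiv finSumFinEquiv (Matrix.fromBlocks M 0 0 (w • (1 : Matrix (Fin 1) (Fin 1) ℂ)))

theorem symm_cast {n : ℕ} (i : Fin n) :
    (finSumFinEquiv (m := n) (n := 1)).symm (Fin.castSucc i) = Sum.inl i := by
  rw [Equiv.symm_apply_eq]
  rfl

theorem symm_last {n : ℕ} :
    (finSumFinEquiv (m := n) (n := 1)).symm (Fin.last n) = Sum.inr 0 := by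
  rw [Equiv.symm_apply_eq]
  rfl

theorem ext_cc {n : ℕ} (M : Matrix (Fin n) (Fin n) ℂ) (w : ℂ) (i j : Fin n) :
    ext M w (Fin.castSucc i) (Fin.castSucc j) = M i j := by
  unfold ext
  rw [Matrix.reindex_apply, Matrix.submatrix_apply, symm_cast, symm_cast, Matrix.fromBlocks_apply₁₁]

theorem ext_cl {n : ℕ} (M : Matrix (Fin n) (Fin n) ℂ) (w : ℂ) (i : Fin n) :
    ext M w (Fin.castSucc i) (Fin.last n) = 0 := by
  unfold ext
  rw [Matrix.reindex_apply, Matrix.submatrix_apply, symm_cast, symm_last, Matrix.fromBlocks_apply₁₂]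
  rfl

theorem ext_lc {n : ℕ} (M : Matrix (Fin n) (Fin n) ℂ) (w : ℂ) (i : Fin n) :
    ext M w (Fin.last n) (Fin.castSucc i) = 0 := by
  unfold ext
  rw [Matrix.reindex_apply, Matrix.submatrix_apply, symm_cast, symm_last, Matrix.fromBlocks_apply₂₁]
  rfl

theorem ext_ll {n : ℕ} (M : Matrix (Fin n) (Fin n) ℂ) (w : ℂ) :
    ext M w (Fin.last n) (Fin.last n) = w := by
  unfold ext
  rw [Matrix.reindex_apply, Matrix.submatrix_apply, symm_last, Matrix.fromBlocks_apply₂₂]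
  simp

theorem ext_mul {n : ℕ} (M M' : Matrix (Fin n) (Fin n) ℂ) (w w' : ℂ) :
    ext M w * ext M' w' = ext (M * M') (w * w') := by
  unfold ext
  rw [Matrix.reindex_apply, Matrix.reindex_apply, Matrix.reindex_apply,
    Matrix.submatrix_mul_equiv, Matrix.fromBlocks_multiply]
  simp [smul_smul, mul_comm w w']

theorem ext_star {n : ℕ} (M : Matrix (Fin n) (Fin n) ℂ) (w : ℂ) :
    star (ext M w) = ext (star M) (star w) := by
  unfold ext
  rw [Matrix.star_eq_conjTranspose, Matrix.conjTranspose_reindex, Matrix.fromBlocks_conjTranspose]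
  simp [Matrix.star_eq_conjTranspose]

theorem ext_normal {n : ℕ} (M : Matrix (Fin n) (Fin n) ℂ) (w : ℂ) (h : IsStarNormal M) :
    IsStarNormal (ext M w) := by
  constructor
  rw [Commute, SemiconjBy, ext_star, ext_mul, ext_mul, h.star_comm_self.eq, mul_comm w]

theorem ext_sub {n : ℕ} (M M' : Matrix (Fin n) (Fin n) ℂ) (w : ℂ) :
    ext M w - ext M' w = ext (M - M') 0 := by
  ext i j
  rw [Matrix.sub_apply]
  refine Fin.lastCases ?_ (fun i => ?_) i <;> refine Fin.lastCases ?_ (fun j => ?_) j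
  · rw [ext_ll, ext_ll, ext_ll, sub_self]
  · rw [ext_lc, ext_lc, ext_lc, sub_self]
  · rw [ext_cl, ext_cl, ext_cl, sub_self]
  · rw [ext_cc, ext_cc, ext_cc, Matrix.sub_apply]

theorem ext_norm_le {n : ℕ} (M : Matrix (Fin n) (Fin n) ℂ) : ‖ext M 0‖ ≤ ‖M‖ := by
  apply opNorm_le _ _ (norm_nonneg _)
  intro x
  have h1 : nsq (ext M 0 *ᵥ x) = nsq (M *ᵥ (fun i => x (Fin.castSucc i))) := by
    rw [nsq_eq, nsq_eq, Fin.sum_univ_castSucc]
    have e1 : (ext M 0 *ᵥ x) (Fin.last n) = 0 := by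
      rw [Matrix.mulVec, dotProduct]
      apply Finset.sum_eq_zero
      intro j _
      refine Fin.lastCases ?_ (fun j => ?_) j
      · rw [ext_ll, zero_mul]
      · rw [ext_lc, zero_mul]
    have e2 : ∀ i, (ext M 0 *ᵥ x) (Fin.castSucc i) =
        (M *ᵥ (fun i => x (Fin.castSucc i))) i := by
      intro i
      rw [Matrix.mulVec, dotProduct, Fin.sum_univ_castSucc, ext_cl, zero_mul, add_zero,
        Matrix.mulVec, dotProduct]
      exact Finset.sum_congr rfl fun j _ => by rw [ext_cc]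
    rw [e1, norm_zero, zero_pow two_ne_zero, add_zero]
    exact Finset.sum_congr rfl fun j _ => by rw [e2]
  rw [h1]
  refine le_trans (nsq_mulVec_le _ _) ?_
  apply mul_le_mul_of_nonneg_left _ (sq_nonneg _)
  rw [nsq_eq, nsq_eq, Fin.sum_univ_castSucc]
  linarith [sq_nonneg ‖x (Fin.last n)‖]

theorem ext_charpoly {n : ℕ} (M : Matrix (Fin n) (Fin n) ℂ) (w : ℂ) (α : Fin n → ℂ)
    (h : M.charpoly = ∏ i, (X - C (α i))) :
    (ext M w).charpoly = ∏ i, (X - C ((Fin.snoc α w : Fin (n + 1) → ℂ) i)) := by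
  unfold ext
  rw [Matrix.charpoly_reindex, Matrix.charpoly_fromBlocks_zero₂₁, h, Fin.prod_univ_castSucc]
  congr 1
  · exact Finset.prod_congr rfl fun i _ => by rw [Fin.snoc_castSucc]
  · have h1 : w • (1 : Matrix (Fin 1) (Fin 1) ℂ) = Matrix.diagonal (fun _ => w) := by
      rw [Matrix.smul_one_eq_diagonal]
    rw [Fin.snoc_last, h1, Matrix.charpoly_diagonal, Fin.prod_univ_one]

theorem HasRatio.succ {n : ℕ} {c : ℝ} (hc : 0 ≤ c) (h : HasRatio n c) : HasRatio (n + 1) c := by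
  obtain ⟨A, B, α, β, hA, hB, hα, hβ, hne, hσ⟩ := h
  -- a far away point
  set R : ℝ := c * ‖A - B‖ + ∑ i, ‖α i‖ + ∑ i, ‖β i‖ with hR
  set w : ℂ := (R : ℂ) with hw
  have hR0 : 0 ≤ R := by positivity
  have hwn : ‖w‖ = R := by rw [hw, Complex.norm_real, Real.norm_of_nonneg hR0]
  have hwα : ∀ i, c * ‖A - B‖ ≤ ‖α i - w‖ := by
    intro i
    have h1 : ‖w‖ - ‖α i‖ ≤ ‖α i - w‖ := by
      rw [norm_sub_rev]
      exact norm_sub_norm_le _ _
    have h2 : ‖α i‖ ≤ ∑ i, ‖α i‖ :=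
      Finset.single_le_sum (fun j _ => norm_nonneg (α j)) (Finset.mem_univ i)
    have h3 : 0 ≤ ∑ i, ‖β i‖ := by positivity
    linarith
  have hwβ : ∀ i, c * ‖A - B‖ ≤ ‖w - β i‖ := by
    intro i
    have h1 : ‖w‖ - ‖β i‖ ≤ ‖w - β i‖ := norm_sub_norm_le _ _
    have h2 : ‖β i‖ ≤ ∑ i, ‖β i‖ :=
      Finset.single_le_sum (fun j _ => norm_nonneg (β j)) (Finset.mem_univ i)
    have h3 : 0 ≤ ∑ i, ‖α i‖ := by positivity
    linarith
  have hnorm : ‖ext A w - ext B w‖ ≤ ‖A - B‖ := by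
    rw [ext_sub]
    exact ext_norm_le _
  refine ⟨ext A w, ext B w, Fin.snoc α w, Fin.snoc β w, ext_normal _ _ hA, ext_normal _ _ hB,
    ext_charpoly _ _ _ hα, ext_charpoly _ _ _ hβ, ?_, ?_⟩
  · intro he
    apply hne
    ext i j
    rw [← ext_cc A w, he, ext_cc]
  · intro σ
    suffices hs : ∃ k, c * ‖A - B‖ ≤
        ‖(Fin.snoc α w : Fin (n + 1) → ℂ) k - (Fin.snoc β w : Fin (n + 1) → ℂ) (σ k)‖ by
      obtain ⟨k, hk⟩ := hs
      exact ⟨k, le_trans (mul_le_mul_of_nonneg_left hnorm hc) hk⟩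
    by_cases hl : σ (Fin.last n) = Fin.last n
    · -- restrict the permutation
      have h1 : ∀ i : Fin n, ∃ j : Fin n, σ (Fin.castSucc i) = Fin.castSucc j := by
        intro i
        have h2 : σ (Fin.castSucc i) ≠ Fin.last n := by
          intro h3
          rw [← hl] at h3
          exact (Fin.castSucc_lt_last i).ne (σ.injective h3)
        exact ⟨(σ (Fin.castSucc i)).castPred h2, (Fin.castSucc_castPred _ _).symm⟩
      choose f hf using h1
      have hinj : Function.Injective f := by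
        intro i j hij
        have h2 : σ (Fin.castSucc i) = σ (Fin.castSucc j) := by rw [hf, hf, hij]
        exact Fin.castSucc_injective n (σ.injective h2)
      obtain ⟨k, hk⟩ := hσ (Equiv.ofBijective f (Finite.injective_iff_bijective.1 hinj))
      refine ⟨Fin.castSucc k, ?_⟩
      rw [hf, Fin.snoc_castSucc, Fin.snoc_castSucc]
      exact hk
    · refine ⟨Fin.last n, ?_⟩
      rw [Fin.snoc_last]
      have h2 : σ (Fin.last n) = Fin.castSucc ((σ (Fin.last n)).castPred hl) :=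
        (Fin.castSucc_castPred _ _).symm
      rw [h2, Fin.snoc_castSucc]
      exact hwβ _

theorem HasRatio.of_le {m n : ℕ} {c : ℝ} (hc : 0 ≤ c) (h : HasRatio m c) (hmn : m ≤ n) :
    HasRatio n c := by
  induction n, hmn using Nat.le_induction with
  | base => exact h
  | succ k _ ih => exact ih.succ hc

end Pool.Agent.Lib.MP_29a676_an.Cert
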