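import Pool.Agent.Lib.MP_29a676_an.Cert.Arith

/-!
# Positivity from diagonal dominance
-/

set_option autoImplicit false

namespace Pool.Agent.Lib.MP_29a676_an.Cert

open Finset

/-- A hermitian form with dominant diagonal is nonnegative. -/
theorem psd_of_dd {m : ℕ} (R : Fin m → Fin m → ℂ) (hH : ∀ i j, R j i = star (R i j))
    (hd : ∀ i, ∑ j, (if j = i then 0 else ‖R i j‖) ≤ (R i i).re) (x : Fin m → ℂ) :
    0 ≤ (∑ i, ∑ j, star (x i) * R i j * x j).re := by
  have h1 : ∀ i j, (if j = i then (R i i).re * ‖x i‖ ^ 2 else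
      -(‖R i j‖ * ((‖x i‖ ^ 2 + ‖x j‖ ^ 2) / 2))) ≤ (star (x i) * R i j * x j).re := by
    intro i j
    split_ifs with h
    · subst h
      apply le_of_eq
      have e1 : (R j j).im = 0 := by
        have := congrArg Complex.im (hH j j)
        simp at this
        linarith
      have e2 : star (x j) * R j j * x j = R j j * (star (x j) * x j) := by ring
      have e3 : star (x j) * x j = ((‖x j‖ ^ 2 : ℝ) : ℂ) := by
        rw [Complex.star_def, ← Complex.normSq_eq_conj_mul_self, Complex.normSq_eq_norm_sq]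
      rw [e2, e3, Complex.re_mul_ofReal]
    · have e1 : -‖star (x i) * R i j * x j‖ ≤ (star (x i) * R i j * x j).re := by
        have := Complex.abs_re_le_norm (star (x i) * R i j * x j)
        exact (abs_le.1 this).1
      refine le_trans ?_ e1
      rw [norm_mul, norm_mul, norm_star]
      have e2 : ‖x i‖ * ‖x j‖ ≤ (‖x i‖ ^ 2 + ‖x j‖ ^ 2) / 2 := by
        nlinarith [sq_nonneg (‖x i‖ - ‖x j‖)]
      have e3 := mul_le_mul_of_nonneg_left e2 (norm_nonneg (R i j))
      linarith
  have h2 : (∑ i, ∑ j, star (x i) * R i j * x j).re =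
      ∑ i, ∑ j, (star (x i) * R i j * x j).re := by
    rw [Complex.re_sum]
    refine sum_congr rfl fun i _ => ?_
    rw [Complex.re_sum]
  rw [h2]
  refine le_trans ?_ (sum_le_sum fun i _ => sum_le_sum fun j _ => h1 i j)
  have h3 : ∀ i j, (if j = i then (R i i).re * ‖x i‖ ^ 2 else
      -(‖R i j‖ * ((‖x i‖ ^ 2 + ‖x j‖ ^ 2) / 2))) =
      (if j = i then (R i i).re * ‖x i‖ ^ 2 else 0) -
      (if j = i then 0 else ‖R i j‖) * (‖x i‖ ^ 2 / 2) -
      (if i = j then 0 else ‖R j i‖) * (‖x j‖ ^ 2 / 2) := by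
    intro i j
    by_cases h : j = i
    · subst h
      simp
    · have h' : ¬ i = j := fun e => h e.symm
      simp only [h, h', if_false]
      rw [hH i j, norm_star]
      ring
  simp_rw [h3, sum_sub_distrib]
  have h4 : ∑ i, ∑ j, (if i = j then 0 else ‖R j i‖) * (‖x j‖ ^ 2 / 2) =
      ∑ i, ∑ j, (if j = i then 0 else ‖R i j‖) * (‖x i‖ ^ 2 / 2) := sum_comm
  rw [h4]
  have h5 : ∀ i, ∑ j, (if j = i then (R i i).re * ‖x i‖ ^ 2 else 0) =
      (R i i).re * ‖x i‖ ^ 2 := by
    intro i
    simp
  simp_rw [h5, ← sum_mul]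
  rw [← sum_sub_distrib, ← sum_sub_distrib]
  apply sum_nonneg
  intro i _
  have h6 := mul_le_mul_of_nonneg_right (hd i) (sq_nonneg ‖x i‖)
  linarith

/-- A Gram form is nonnegative. -/
theorem psd_gram {m p : ℕ} (L : Fin m → Fin p → ℂ) (x : Fin m → ℂ) :
    0 ≤ (∑ i, ∑ j, star (x i) * (∑ l, L i l * star (L j l)) * x j).re := by
  have h1 : ∑ i, ∑ j, star (x i) * (∑ l, L i l * star (L j l)) * x j =
      ∑ l, star (∑ i, star (L i l) * x i) * (∑ j, star (L j l) * x j) := by
    calc ∑ i, ∑ j, star (x i) * (∑ l, L i l * star (L j l)) * x j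
        = ∑ i, ∑ j, ∑ l, star (x i) * L i l * (star (L j l) * x j) := by
          refine sum_congr rfl fun i _ => sum_congr rfl fun j _ => ?_
          rw [mul_sum, sum_mul]
          refine sum_congr rfl fun l _ => ?_
          ring
      _ = ∑ i, ∑ l, ∑ j, star (x i) * L i l * (star (L j l) * x j) :=
          sum_congr rfl fun i _ => sum_comm
      _ = ∑ l, ∑ i, ∑ j, star (x i) * L i l * (star (L j l) * x j) := sum_comm
      _ = ∑ l, star (∑ i, star (L i l) * x i) * (∑ j, star (L j l) * x j) := by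
          refine sum_congr rfl fun l _ => ?_
          rw [star_sum, sum_mul_sum]
          refine sum_congr rfl fun i _ => sum_congr rfl fun j _ => ?_
          rw [star_mul', star_star]
          ring
  rw [h1, Complex.re_sum]
  apply sum_nonneg
  intro l _
  rw [Complex.star_def, ← Complex.normSq_eq_conj_mul_self, Complex.ofReal_re]
  exact Complex.normSq_nonneg _

/-- The form of a matrix with an approximate Cholesky factor is nonnegative. -/
theorem psd_cert {m p : ℕ} (M : Fin m → Fin m → ℂ) (L : Fin m → Fin p → ℂ) (c : ℝ) (hc : 0 ≤ c)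
    (hH : ∀ i j, M j i = star (M i j))
    (hd : ∀ i, ∑ j, (if j = i then 0 else ‖M i j - c * ∑ l, L i l * star (L j l)‖) ≤
      (M i i - c * ∑ l, L i l * star (L i l)).re) (x : Fin m → ℂ) :
    0 ≤ (∑ i, ∑ j, star (x i) * M i j * x j).re := by
  have h1 := psd_of_dd (fun i j => M i j - c * ∑ l, L i l * star (L j l)) (by
    intro i j
    rw [star_sub, ← hH, star_mul', star_sum, Complex.star_def, Complex.conj_ofReal]
    congr 2
    refine sum_congr rfl fun l _ => ?_
    simp only [RCLike.star_def, map_mul, Complex.conj_conj]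
    ring) hd x
  have h2 := mul_nonneg hc (psd_gram L x)
  have h3 : ∑ i, ∑ j, star (x i) * M i j * x j =
      (∑ i, ∑ j, star (x i) * (M i j - c * ∑ l, L i l * star (L j l)) * x j) +
      c * ∑ i, ∑ j, star (x i) * (∑ l, L i l * star (L j l)) * x j := by
    rw [mul_sum, ← sum_add_distrib]
    refine sum_congr rfl fun i _ => ?_
    rw [mul_sum, ← sum_add_distrib]
    refine sum_congr rfl fun j _ => ?_
    ring
  rw [h3, Complex.add_re, Complex.re_ofReal_mul]
  linarith

end Pool.Agent.Lib.MP_29a676_an.Cert
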